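import Pool.Agent.Helper95.TWR.Lib

/-!
Row SCL of the sheet TW: on minimal modules the equivariant Hermitian matrices are scalar.
-/

set_option linter.unusedSectionVars false

open MeasureTheory Filter Topology Finset
open scoped ComplexConjugate Matrix

namespace Pool.Agent.Helper95.TWR

open Pool.Agent.Helper98.TW
open Pool.Agent.Helper73.TWR (pull)

section scl

variable {Ω : Type} [m0 : MeasurableSpace Ω] {μ : Measure Ω} [IsProbabilityMeasure μ]
variable {C : SA Ω} {m : ℕ}

theorem am_matmul {A B : Ω → Matrix (Fin m) (Fin m) ℂ} (hA : ∀ a b, AM μ C fun x => A x a b)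
    (hB : ∀ a b, AM μ C fun x => B x a b) (a b : Fin m) : AM μ C fun x => (A x * B x) a b := by
  refine am_congr (am_finset_sum (μ := μ) (𝒜 := C) Finset.univ (F := fun k x => A x a k * B x k b)
    fun k _ => am_mul (hA a k) (hB k b)) (Eventually.of_forall fun x => ?_)
  simp [Matrix.mul_apply]

theorem am_aeval {B : Ω → Matrix (Fin m) (Fin m) ℂ} (hB : ∀ a b, AM μ C fun x => B x a b)
    (p : Polynomial ℂ) : ∀ a b, AM μ C fun x => (Polynomial.aeval (B x) p) a b := by
  have hone : ∀ c : ℂ, ∀ a b : Fin m, AM μ C fun x =>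
      (Polynomial.aeval (B x) (Polynomial.C c)) a b := by
    intro c a b
    refine am_congr (am_const (μ := μ) (𝒜 := C) ((algebraMap ℂ (Matrix (Fin m) (Fin m) ℂ) c) a b))
      (Eventually.of_forall fun x => ?_)
    simp
  induction p using Polynomial.induction_on with
  | C c => exact hone c
  | add p q hp hq =>
    intro a b
    refine am_congr (am_add (hp a b) (hq a b)) (Eventually.of_forall fun x => ?_)
    simp
  | monomial n c ih =>
    intro a b
    refine am_congr (am_matmul ih hB a b) (Eventually.of_forall fun x => ?_)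
    have h : Polynomial.aeval (B x) (Polynomial.C c * Polynomial.X ^ (n + 1)) =
        Polynomial.aeval (B x) (Polynomial.C c * Polynomial.X ^ n) * B x := by
      rw [pow_succ, ← mul_assoc, map_mul _ (Polynomial.C c * Polynomial.X ^ n), Polynomial.aeval_X]
    show (Polynomial.aeval (B x) (Polynomial.C c * Polynomial.X ^ n) * B x) a b =
      (Polynomial.aeval (B x) (Polynomial.C c * Polynomial.X ^ (n + 1))) a b
    rw [h]

theorem aeval_conj {A U : Matrix (Fin m) (Fin m) ℂ} (hU : U ∈ Matrix.unitaryGroup (Fin m) ℂ)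
    (p : Polynomial ℂ) : Polynomial.aeval (U * A * U.conjTranspose) p =
      U * Polynomial.aeval A p * U.conjTranspose := by
  have h1 : U * U.conjTranspose = 1 := by
    rw [← Matrix.star_eq_conjTranspose]; exact Matrix.mem_unitaryGroup_iff.1 hU
  have h2 : U.conjTranspose * U = 1 := by
    rw [← Matrix.star_eq_conjTranspose]; exact Matrix.mem_unitaryGroup_iff'.1 hU
  induction p using Polynomial.induction_on with
  | C c =>
    rw [Polynomial.aeval_C, Polynomial.aeval_C, Algebra.algebraMap_eq_smul_one, Matrix.mul_smul,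
      Matrix.smul_mul, Matrix.mul_one, h1]
  | add p q hp hq => rw [map_add, map_add, hp, hq, Matrix.mul_add, Matrix.add_mul]
  | monomial n c ih =>
    rw [pow_succ, ← mul_assoc, map_mul _ (Polynomial.C c * Polynomial.X ^ n), map_mul _ (Polynomial.C c * Polynomial.X ^ n), Polynomial.aeval_X,
      Polynomial.aeval_X, ih]
    calc U * Polynomial.aeval A (Polynomial.C c * Polynomial.X ^ n) * U.conjTranspose *
        (U * A * U.conjTranspose) = U * Polynomial.aeval A (Polynomial.C c * Polynomial.X ^ n) *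
          (U.conjTranspose * U) * A * U.conjTranspose := by noncomm_ring
      _ = _ := by rw [h2]; noncomm_ring

/-- the characteristic polynomial of an equivariant matrix is constant -/
theorem charpoly_const {R R' : Ω → Ω} (hR : Ergodic R μ) (hC : IA μ C R R')
    {ρ B : Ω → Matrix (Fin m) (Fin m) ℂ}
    (hρ : ∀ᵐ x ∂μ, ρ x ∈ Matrix.unitaryGroup (Fin m) ℂ)
    (hB : ∀ a b, AM μ C fun x => B x a b)
    (hBR : ∀ᵐ x ∂μ, B (R x) = ρ x * B x * (ρ x).conjTranspose) :
    ∃ p : Polynomial ℂ, ∀ᵐ x ∂μ, (B x).charpoly = p := by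
  have h1 : ∀ z : ℕ, ∃ c : ℂ, ∀ᵐ x ∂μ, (Matrix.scalar (Fin m) (z : ℂ) - B x).det = c := by
    intro z
    have hm : AEStronglyMeasurable (fun x => (Matrix.scalar (Fin m) (z : ℂ) - B x).det) μ := by
      simp only [Matrix.det_apply]
      refine Finset.aestronglyMeasurable_fun_sum _ fun s _ => ?_
      refine AEStronglyMeasurable.const_smul ?_ _
      refine Finset.aestronglyMeasurable_fun_prod _ fun i _ => ?_
      simp only [Matrix.sub_apply]
      exact aestronglyMeasurable_const.sub (aesm hC.1 (hB _ _))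
    obtain ⟨c, hc⟩ := hR.ae_eq_const_of_ae_eq_comp_ae hm (by
      filter_upwards [hρ, hBR] with x hx hx2
      show (Matrix.scalar (Fin m) (z : ℂ) - B (R x)).det = _
      have h1 : ρ x * (ρ x).conjTranspose = 1 := by
        rw [← Matrix.star_eq_conjTranspose]; exact Matrix.mem_unitaryGroup_iff.1 hx
      have h2 : Matrix.scalar (Fin m) (z : ℂ) - ρ x * B x * (ρ x).conjTranspose =
          ρ x * (Matrix.scalar (Fin m) (z : ℂ) - B x) * (ρ x).conjTranspose := by
        rw [Matrix.mul_sub, Matrix.sub_mul]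
        congr 1
        have h3 : Matrix.scalar (Fin m) (z : ℂ) = (z : ℂ) • (1 : Matrix (Fin m) (Fin m) ℂ) := by
          rw [Matrix.smul_one_eq_diagonal]; rfl
        rw [h3, Matrix.mul_smul, Matrix.smul_mul, Matrix.mul_one, h1]
      rw [hx2, h2, Matrix.det_mul, Matrix.det_mul, mul_comm (ρ x).det, mul_assoc,
        ← Matrix.det_mul, h1, Matrix.det_one, mul_one])
    exact ⟨c, hc⟩
  choose c hc using h1
  have h2 := ae_all_iff.2 hc
  obtain ⟨x₀, hx₀⟩ := h2.exists
  refine ⟨(B x₀).charpoly, ?_⟩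
  filter_upwards [h2] with x hx
  refine Polynomial.eq_of_infinite_eval_eq _ _ ?_
  refine Set.Infinite.mono (s := Set.range fun z : ℕ => (z : ℂ)) ?_
    (Set.infinite_range_of_injective Nat.cast_injective)
  rintro _ ⟨z, rfl⟩
  show Polynomial.eval (z : ℂ) _ = Polynomial.eval (z : ℂ) _
  rw [Matrix.eval_charpoly, Matrix.eval_charpoly, hx z, hx₀ z]

end scl

theorem st_SCL : ST_SCL := by
  intro Ω _ μ _ V _ _ _ R R' θ C E m e ρ hS hE hC hMi hF B hB hBh hBR
  rcases Nat.eq_zero_or_pos m with rfl | hm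
  · exact ⟨0, Eventually.of_forall fun x => Subsingleton.elim _ _⟩
  obtain ⟨p₀, hp₀⟩ := charpoly_const hE hC hF.unit hB hBR
  obtain ⟨x₀, hx₀, hx₀h⟩ := (hp₀.and hBh).exists
  have hp0 : p₀ ≠ 0 := by rw [← hx₀]; exact (Matrix.charpoly_monic _).ne_zero
  set t : ℝ := hx₀h.eigenvalues ⟨0, hm⟩ with ht
  have hroot : p₀.IsRoot (t : ℂ) := by rw [← hx₀]; exact eig_root hx₀h _
  obtain ⟨r, hr⟩ := specproj (m := m) p₀ hp0 t
  obtain ⟨Q, hQ⟩ : ∃ Q : Ω → Matrix (Fin m) (Fin m) ℂ, ∀ x, Q x = 1 - Polynomial.aeval (B x) r :=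
    ⟨_, fun _ => rfl⟩
  -- `Q = 1 - P`
  have hQh : ∀ᵐ x ∂μ, (Q x).IsHermitian ∧ Q x * Q x = Q x ∧
      B x * (1 - Q x) = (t : ℂ) • (1 - Q x) ∧ Q x ≠ 1 := by
    filter_upwards [hp₀, hBh] with x h1 h2
    obtain ⟨h3, h4, h5, h6⟩ := hr (B x) h2 h1
    rw [hQ]
    refine ⟨Matrix.isHermitian_one.sub h3, ?_, ?_, ?_⟩
    · rw [Matrix.mul_sub, Matrix.sub_mul, Matrix.sub_mul, h4]
      noncomm_ring
    · rw [sub_sub_cancel]; exact h5
    · intro h7
      apply h6 hroot
      have h8 : (1 : Matrix (Fin m) (Fin m) ℂ) - (1 - Polynomial.aeval (B x) r) = 0 := by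
        rw [h7, sub_self]
      rwa [sub_sub_cancel] at h8
  have hQm : ∀ a b, AM μ C fun x => Q x a b := by
    intro a b
    refine am_congr (am_sub (am_const (μ := μ) (𝒜 := C) ((1 : Matrix (Fin m) (Fin m) ℂ) a b))
      (am_aeval hB r a b)) (Eventually.of_forall fun x => ?_)
    show _ = Q x a b
    rw [hQ]; rfl
  have hQR : ∀ᵐ x ∂μ, Q (R x) * ρ x = ρ x * Q x := by
    filter_upwards [hF.unit, hBR] with x h1 h2
    have h3 : (ρ x).conjTranspose * ρ x = 1 := by
      rw [← Matrix.star_eq_conjTranspose]; exact Matrix.mem_unitaryGroup_iff'.1 h1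
    rw [hQ, hQ, h2, aeval_conj h1, Matrix.sub_mul, Matrix.mul_sub, Matrix.one_mul, Matrix.mul_one,
      Matrix.mul_assoc, h3, Matrix.mul_one]
  have hQb : ∀ a b, ∀ᵐ x ∂μ, ‖Q x a b‖ ≤ 1 := by
    intro a b
    filter_upwards [hQh] with x hx
    obtain ⟨h1, h2, -, -⟩ := hx
    have h3 : ∑ k, ‖Q x a k‖ ^ 2 = RCLike.re (Q x a a) := by
      have h4 : Q x a a = ∑ k, Q x a k * Q x k a := by
        conv_lhs => rw [← h2]
        rw [Matrix.mul_apply]
      have h5 : ∀ k, Q x a k * Q x k a = ((‖Q x a k‖ ^ 2 : ℝ) : ℂ) := by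
        intro k
        have h6 : Q x k a = conj (Q x a k) := (h1.apply k a).symm
        rw [h6, Complex.mul_conj, Complex.normSq_eq_norm_sq]
      rw [h4, Finset.sum_congr rfl fun k _ => h5 k, ← Complex.ofReal_sum]
      exact (Complex.ofReal_re _).symm
    have h6 : ‖Q x a a‖ ^ 2 ≤ ∑ k, ‖Q x a k‖ ^ 2 :=
      Finset.single_le_sum (f := fun k => ‖Q x a k‖ ^ 2) (fun _ _ => sq_nonneg _) (Finset.mem_univ a)
    have h7 : RCLike.re (Q x a a) ≤ ‖Q x a a‖ := RCLike.re_le_norm _
    have h8 : ‖Q x a a‖ ≤ 1 := by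
      by_contra hc
      push Not at hc
      nlinarith
    have h9 : ‖Q x a b‖ ^ 2 ≤ ∑ k, ‖Q x a k‖ ^ 2 :=
      Finset.single_le_sum (f := fun k => ‖Q x a k‖ ^ 2) (fun _ _ => sq_nonneg _) (Finset.mem_univ b)
    nlinarith [norm_nonneg (Q x a b)]
  -- coefficients
  obtain ⟨g, hg⟩ : ∃ g : Lp V 2 μ → Fin m → Ω → ℂ, ∀ G a, g G a =
      μ[fun x => (inner ℂ (e a x) (G x) : ℂ)|C] := ⟨_, fun _ _ => rfl⟩
  have hgi : ∀ (G : Lp V 2 μ) (a : Fin m),
      Integrable (fun x => (inner ℂ (e a x) (G x) : ℂ)) μ :=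
    fun G a => int_inner (Lp.memLp (e a)) (Lp.memLp G)
  obtain ⟨f, hf⟩ : ∃ f : Fin m → Ω → V, ∀ b x, f b x = ∑ a, Q x b a • e a x :=
    ⟨_, fun _ _ => rfl⟩
  have hfm : ∀ b, MemLp (f b) 2 μ := by
    intro b
    have h1 : f b = fun x => ∑ a, Q x b a • e a x := funext fun x => hf b x
    rw [h1]
    exact memLp_finsetSum _ fun a _ => memLp_smul hC.1 (hQm b a) (hQb b a) (Lp.memLp (e a))
  -- `E(⟨f b, G⟩ | C) = ∑ g a Q a b`
  have hfg : ∀ (G : Lp V 2 μ) (b : Fin m), μ[fun x => (inner ℂ (f b x) (G x) : ℂ)|C] =ᵐ[μ]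
      fun x => ∑ a, Q x a b * g G a x := by
    intro G b
    have h1 : (fun x => (inner ℂ (f b x) (G x) : ℂ)) =ᵐ[μ]
        fun x => ∑ a, Q x a b * (inner ℂ (e a x) (G x) : ℂ) := by
      filter_upwards [hQh] with x hx
      rw [hf, sum_inner]
      refine Finset.sum_congr rfl fun a _ => ?_
      rw [inner_smul_left]
      have h2 : Q x a b = conj (Q x b a) := (hx.1.apply a b).symm
      rw [h2]
    have h3 : ∀ a, Integrable (fun x => Q x a b * (inner ℂ (e a x) (G x) : ℂ)) μ := by
      intro a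
      exact (hgi G a).bdd_mul (aesm hC.1 (hQm a b)) (hQb a b)
    refine (condExp_congr_ae h1).trans ((ce_sum h3).trans ?_)
    filter_upwards [ae_all_iff.2 fun a => pull (hQm a b) (h3 a) (hgi G a)] with x hx
    refine Finset.sum_congr rfl fun a _ => ?_
    rw [hx a, hg]
  -- coefficients of combinations of the frame
  have hee : ∀ a b, ∀ᵐ x ∂μ, ‖(inner ℂ (e b x) (e a x) : ℂ)‖ ≤ m := by
    intro a b
    filter_upwards [hF.norm] with x hx
    have h1 : ∀ a, ‖e a x‖ ^ 2 ≤ m := by
      intro a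
      rw [← hx]
      exact Finset.single_le_sum (f := fun a => ‖e a x‖ ^ 2) (fun _ _ => sq_nonneg _)
        (Finset.mem_univ a)
    have h2 := norm_inner_le_norm (𝕜 := ℂ) (e b x) (e a x)
    nlinarith [h1 a, h1 b, sq_nonneg (‖e a x‖ - ‖e b x‖)]
  have hcomb : ∀ (w : Fin m → Ω → ℂ), (∀ a, AM μ C (w a)) → (∀ a, Integrable (w a) μ) →
      ∀ (G : Lp V 2 μ), (∀ᵐ x ∂μ, G x = ∑ a, w a x • e a x) → ∀ b, g G b =ᵐ[μ] w b := by
    intro w hw hwi G hG b
    have h1 : (fun x => (inner ℂ (e b x) (G x) : ℂ)) =ᵐ[μ]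
        fun x => ∑ a, w a x * (inner ℂ (e b x) (e a x) : ℂ) := by
      filter_upwards [hG] with x hx
      rw [hx, inner_sum]
      exact Finset.sum_congr rfl fun a _ => inner_smul_right _ _ _
    have h3 : ∀ a, Integrable (fun x => w a x * (inner ℂ (e b x) (e a x) : ℂ)) μ :=
      fun a => (hwi a).mul_bdd (hgi (e a) b).1 (hee a b)
    rw [hg]
    refine (condExp_congr_ae h1).trans ((ce_sum h3).trans ?_)
    filter_upwards [ae_all_iff.2 fun a => pull (hw a) (h3 a) (hgi (e a) b),
      ae_all_iff.2 fun a => hF.on a b] with x hx hx2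
    simp_rw [hx]
    rw [Finset.sum_eq_single b]
    · rw [hx2 b, if_pos rfl, mul_one]
    · intro a _ hab
      rw [hx2 a, if_neg hab, mul_zero]
    · intro h
      exact absurd (Finset.mem_univ b) h
  obtain ⟨E', hE'⟩ : ∃ E' : Submodule ℂ (Lp V 2 μ), E' = E ⊓ ⨅ b, ZZ μ C (f b) := ⟨_, rfl⟩
  have hmem : ∀ G, G ∈ E' ↔ G ∈ E ∧ ∀ b, ∀ᵐ x ∂μ, ∑ a, Q x a b * g G a x = 0 := by
    intro G
    rw [hE', Submodule.mem_inf, Submodule.mem_iInf]
    refine and_congr_right fun _ => forall_congr' fun b => ?_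
    rw [mem_ZZ hC.1 (hfm b)]
    constructor
    · intro h
      filter_upwards [h, hfg G b] with x h1 h2
      rw [← h2, h1]; rfl
    · intro h
      filter_upwards [h, hfg G b] with x h1 h2
      rw [h2, h1]; rfl
  have hCM : CM μ C R θ E' := by
    refine ⟨⟨?_, ?_⟩, ?_⟩
    · rw [hE', Submodule.coe_inf, Submodule.coe_iInf]
      exact hMi.1.closed.inter (isClosed_iInter fun b => ZZ_closed (f b))
    · intro G hG c hc hcB G' hG'
      obtain ⟨Bc, hBc⟩ := hcB
      rw [hmem] at hG ⊢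
      refine ⟨hMi.1.mul G hG.1 c hc ⟨Bc, hBc⟩ G' hG', fun b => ?_⟩
      have h1 : ∀ a, ∀ᵐ x ∂μ, g G' a x = c x * g G a x := by
        intro a
        have h2 : (fun x => (inner ℂ (e a x) (G' x) : ℂ)) =ᵐ[μ]
            fun x => c x * (inner ℂ (e a x) (G x) : ℂ) := by
          filter_upwards [hG'] with x hx
          rw [hx, inner_smul_right]
        have h3 : Integrable (fun x => c x * (inner ℂ (e a x) (G x) : ℂ)) μ :=
          (hgi G a).bdd_mul (aesm hC.1 hc) hBc
        rw [hg, hg]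
        exact (condExp_congr_ae h2).trans (pull hc h3 (hgi G a))
      filter_upwards [ae_all_iff.2 h1, hG.2 b] with x h2 h3
      simp_rw [h2]
      calc ∑ a, Q x a b * (c x * g G a x) = c x * ∑ a, Q x a b * g G a x := by
            rw [Finset.mul_sum]; exact Finset.sum_congr rfl fun a _ => by ring
        _ = 0 := by rw [h3, mul_zero]
    · intro G hG G' hG'
      rw [hmem] at hG ⊢
      refine ⟨hMi.1.comp G hG.1 G' hG', fun d => ?_⟩
      have hgm : ∀ c, AM μ C (g G c) := fun c => by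
        rw [hg]; exact stronglyMeasurable_condExp.aestronglyMeasurable
      have hgI : ∀ c, Integrable (g G c) μ := fun c => by rw [hg]; exact integrable_condExp
      have hw1 : ∀ a c, AM μ C fun x => g G c (R x) * ρ x c a :=
        fun a c => am_mul (hC.2 _ (hgm c)).1 (hF.meas c a)
      have hw2 : ∀ a c, Integrable (fun x => g G c (R x) * ρ x c a) μ := by
        intro a c
        refine (hS.mp.integrable_comp_of_integrable (hgI c)).mul_bdd (c := 1)
          (aesm hC.1 (hF.meas c a)) ?_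
        filter_upwards [hF.unit] with x hx
        exact entry_norm_bound_of_unitary hx c a
      have h1 : ∀ᵐ x ∂μ, G' x = ∑ a, (∑ c, g G c (R x) * ρ x c a) • e a x := by
        filter_upwards [hG', ae_comp hS.mp (hF.span G hG.1), ae_all_iff.2 hF.comp] with x h1 h2 h3
        rw [h1, h2, map_sum]
        simp_rw [map_smul, h3, Finset.smul_sum, Finset.sum_smul, mul_smul]
        rw [Finset.sum_comm]
        simp_rw [hg]
      have h2 := hcomb (fun a x => ∑ c, g G c (R x) * ρ x c a)
        (fun a => am_finset_sum _ fun c _ => hw1 a c)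
        (fun a => integrable_finsetSum _ fun c _ => hw2 a c) G' h1
      filter_upwards [ae_all_iff.2 h2, hQR, ae_all_iff.2 fun k => ae_comp hS.mp (hG.2 k)]
        with x h3 h4 h5
      simp_rw [h3]
      have h6 : ∀ c, ∑ a, ρ x c a * Q x a d = ∑ k, Q (R x) c k * ρ x k d := by
        intro c
        have := congrFun (congrFun h4 c) d
        rw [Matrix.mul_apply, Matrix.mul_apply] at this
        exact this.symm
      calc ∑ a, Q x a d * ∑ c, g G c (R x) * ρ x c a =
          ∑ c, g G c (R x) * ∑ a, ρ x c a * Q x a d := by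
            simp_rw [Finset.mul_sum]
            rw [Finset.sum_comm]
            exact Finset.sum_congr rfl fun c _ => Finset.sum_congr rfl fun a _ => by ring
        _ = ∑ c, g G c (R x) * ∑ k, Q (R x) c k * ρ x k d := by simp_rw [h6]
        _ = ∑ k, (∑ c, Q (R x) c k * g G c (R x)) * ρ x k d := by
            simp_rw [Finset.mul_sum, Finset.sum_mul]
            rw [Finset.sum_comm]
            exact Finset.sum_congr rfl fun c _ => Finset.sum_congr rfl fun a _ => by ring
        _ = 0 := by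
            refine Finset.sum_eq_zero fun k _ => ?_
            rw [h5 k, zero_mul]
  by_cases hbot : E' = ⊥
  · exfalso
    have hPm : ∀ a b, AM μ C fun x => (1 - Q x) a b := by
      intro a b
      exact am_sub (am_const (μ := μ) (𝒜 := C) ((1 : Matrix (Fin m) (Fin m) ℂ) a b)) (hQm a b)
    have hPb : ∀ a b, ∀ᵐ x ∂μ, ‖(1 - Q x) a b‖ ≤ 2 := by
      intro a b
      filter_upwards [hQb a b] with x hx
      have h1 : ‖(1 : Matrix (Fin m) (Fin m) ℂ) a b‖ ≤ 1 := by
        rw [Matrix.one_apply]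
        split_ifs <;> simp
      calc ‖(1 - Q x) a b‖ ≤ ‖(1 : Matrix (Fin m) (Fin m) ℂ) a b‖ + ‖Q x a b‖ := norm_sub_le _ _
        _ ≤ 2 := by linarith
    have hPz : ∀ a c, ∀ᵐ x ∂μ, (1 - Q x) a c = 0 := by
      intro a
      obtain ⟨G, hGE, hG⟩ := C0.sum' hMi.1.toC0 hC.1 (c := fun c x => (1 - Q x) a c) (hPm a)
        (hPb a) hF.mem
      have h1 := hcomb (fun c x => (1 - Q x) a c) (hPm a) (fun c => by
        refine Integrable.mono' (integrable_const (2 : ℝ)) (aesm hC.1 (hPm a c)) ?_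
        exact hPb a c) G hG
      have h2 : G ∈ E' := by
        rw [hmem]
        refine ⟨hGE, fun b => ?_⟩
        filter_upwards [ae_all_iff.2 h1, hQh] with x h2 h3
        simp_rw [h2]
        have h4 : (1 - Q x) * Q x = 0 := by rw [Matrix.sub_mul, h3.2.1, Matrix.one_mul, sub_self]
        have h5 := congrFun (congrFun h4 a) b
        rw [Matrix.mul_apply] at h5
        simp_rw [mul_comm (Q x _ b)]
        exact h5
      rw [hbot, Submodule.mem_bot] at h2
      intro c
      have h3 : g G c =ᵐ[μ] 0 := by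
        rw [hg]
        have h4 : (fun x => (inner ℂ (e c x) (G x) : ℂ)) =ᵐ[μ] 0 := by
          have h5 : G =ᵐ[μ] (0 : Ω → V) := by rw [h2]; exact Lp.coeFn_zero _ _ _
          filter_upwards [h5] with x hx
          rw [hx]
          simp
        refine (condExp_congr_ae h4).trans ?_
        rw [condExp_zero]
      filter_upwards [h1 c, h3] with x h4 h5
      rw [← h4, h5]
      rfl
    obtain ⟨x, hx, hx2⟩ := ((ae_all_iff.2 fun a => ae_all_iff.2 (hPz a)).and hQh).exists
    apply hx2.2.2.2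
    have h1 : (1 : Matrix (Fin m) (Fin m) ℂ) - Q x = 0 := by
      ext a b
      exact hx a b
    exact (sub_eq_zero.1 h1).symm
  · have hEE : E' = E := hMi.2.2 E' hCM (by rw [hE']; exact inf_le_left) hbot
    refine ⟨t, ?_⟩
    have h1 : ∀ a b, ∀ᵐ x ∂μ, Q x a b = 0 := by
      intro a b
      have h2 : e a ∈ E' := by rw [hEE]; exact hF.mem a
      rw [hmem] at h2
      have h3 : ∀ c, ∀ᵐ x ∂μ, g (e a) c x = if a = c then 1 else 0 := by
        intro c
        rw [hg]
        exact hF.on a c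
      filter_upwards [h2.2 b, ae_all_iff.2 h3] with x h4 h5
      simp_rw [h5] at h4
      simpa using h4
    filter_upwards [ae_all_iff.2 fun a => ae_all_iff.2 (h1 a), hQh] with x hx hx2
    have h2 : Q x = 0 := by
      ext a b
      exact hx a b
    have h3 := hx2.2.2.1
    rw [h2, sub_zero, Matrix.mul_one] at h3
    exact h3

end Pool.Agent.Helper95.TWR
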