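import Pool.Agent.Helper95.TWR.SCL
import Pool.Agent.Helper72.TWR.MIN
import Pool.Agent.Helper73.TWR.Tool
import Pool.Agent.Helper96.TWR.SPN
import Pool.Agent.Helper96.TWR.DNS
import Pool.Agent.Helper99.TWR.TWS
import Pool.Agent.Helper13.TWR.LZ

/-!
Row SST of the sheet TW: the induction step for modules of small rank.
-/

set_option linter.unusedSectionVars false

open MeasureTheory Filter Topology Finset
open scoped ComplexConjugate Matrix ComplexOrder

namespace Pool.Agent.Helper95.TWR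

open Pool.Agent.Helper98.TW
open Pool.Agent.Helper73.TWR

section sst

variable {Ω : Type} [m0 : MeasurableSpace Ω] {μ : Measure Ω} [IsProbabilityMeasure μ]

/-- the submodule `φ L²(𝒜)` -/
noncomputable def KH (μ : Measure Ω) (𝒜 : SA Ω) (φ : Ω → ℂ) : Submodule ℂ (Lp ℂ 2 μ) where
  carrier := {G | AM μ 𝒜 fun x => conj (φ x) * G x}
  zero_mem' := by
    refine am_congr (am_const (μ := μ) (𝒜 := 𝒜) 0) ?_
    filter_upwards [Lp.coeFn_zero ℂ 2 μ] with x hx
    rw [hx]; simp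
  add_mem' := by
    intro G G' hG hG'
    refine am_congr (am_add hG hG') ?_
    filter_upwards [Lp.coeFn_add G G'] with x hx
    rw [hx, Pi.add_apply, mul_add]
  smul_mem' := by
    intro c G hG
    refine am_congr (am_mul (am_const (μ := μ) (𝒜 := 𝒜) c) hG) ?_
    filter_upwards [Lp.coeFn_smul c G] with x hx
    rw [hx, Pi.smul_apply, smul_eq_mul]
    ring

theorem mem_KH {𝒜 : SA Ω} {φ : Ω → ℂ} {G : Lp ℂ 2 μ} :
    G ∈ KH μ 𝒜 φ ↔ AM μ 𝒜 fun x => conj (φ x) * G x := Iff.rfl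

theorem KH_C0 {C 𝒜 : SA Ω} (hCA : LQ μ C 𝒜) (φ : Ω → ℂ) : C0 μ C (KH μ 𝒜 φ) := by
  refine ⟨?_, ?_⟩
  · refine isClosed_of_closure_subset fun G hG => ?_
    obtain ⟨u, hu, hu2⟩ := mem_closure_iff_seq_limit.1 hG
    have h1 : TendstoInMeasure μ (fun n => (u n : Ω → ℂ)) atTop G :=
      tendstoInMeasure_of_tendsto_Lp hu2
    obtain ⟨ns, -, hns⟩ := h1.exists_seq_tendsto_ae
    refine am_of_tendsto (F := fun k x => conj (φ x) * u (ns k) x) (fun k => hu _) ?_
    filter_upwards [hns] with x hx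
    exact hx.const_mul _
  · intro G hG c hc _ G' hG'
    rw [mem_KH] at hG ⊢
    refine am_congr (am_mul (hCA _ hc) hG) ?_
    filter_upwards [hG'] with x hx
    rw [hx, smul_eq_mul]
    ring

theorem ZZ_C0 {C : SA Ω} (hC : Lm C) {f : Ω → ℂ} (hf : MemLp f 2 μ) : C0 μ C (ZZ μ C f) := by
  refine ⟨ZZ_closed f, ?_⟩
  rintro G hG c hc ⟨B, hB⟩ G' hG'
  rw [mem_ZZ hC hf] at hG ⊢
  have hi : Integrable (fun x => (inner ℂ (f x) (G x) : ℂ)) μ := int_inner hf (Lp.memLp G)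
  have h1 : (fun x => (inner ℂ (f x) (G' x) : ℂ)) =ᵐ[μ] fun x => c x * (inner ℂ (f x) (G x) : ℂ) := by
    filter_upwards [hG'] with x hx
    rw [hx, inner_smul_right]
  refine (ce_congr h1).trans ?_
  exact ce_mul_zero hc (hi.bdd_mul (aesm hC hc) hB) hi hG

theorem ab_sum {ι : Type} (s : Finset ι) {F : ι → Ω → ℂ} (h : ∀ i ∈ s, AB μ (F i)) :
    AB μ (fun x => ∑ i ∈ s, F i x) := by
  classical
  induction s using Finset.induction_on with
  | empty => simpa using ab_const (μ := μ) 0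
  | insert a s ha ih =>
    have := (h a (Finset.mem_insert_self a s)).add
      (ih fun i hi => h i (Finset.mem_insert_of_mem hi))
    refine this.congr (Filter.Eventually.of_forall fun x => ?_)
    simp [Finset.sum_insert ha]

theorem ce_sum2 {C : SA Ω} {m : ℕ} {f : Fin m → Fin m → Ω → ℂ}
    (hf : ∀ a b, Integrable (f a b) μ) :
    μ[fun x => ∑ a, ∑ b, f a b x|C] =ᵐ[μ] fun x => ∑ a, ∑ b, (μ[f a b|C]) x := by
  have h1 := ce_sum (C := C) (f := fun a x => ∑ b, f a b x)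
    (fun a => integrable_finsetSum _ fun b _ => hf a b)
  filter_upwards [h1, ae_all_iff.2 fun a => ce_sum (C := C) (hf a)] with x h2 h3
  rw [h2]
  exact Finset.sum_congr rfl fun a _ => h3 a

/-- covariance of the components -/
theorem equi {R R' : Ω → Ω} {𝒜 : SA Ω} {m : ℕ} {F : Fin m → Fin m → Ω → ℂ}
    {ρ : Ω → Matrix (Fin m) (Fin m) ℂ} {φ : Ω → ℂ} (hS : Sys μ R R') (hA : IA μ 𝒜 R R')
    (hF : ∀ a b, AB μ (F a b)) (hρ : ∀ a b, AM μ 𝒜 fun x => ρ x a b)
    (hρA : ∀ a b, AB μ fun x => ρ x a b)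
    (hFR : ∀ a b, ∀ᵐ x ∂μ, F a b (R x) = ∑ c, ∑ d, ρ x a c * conj (ρ x b d) * F c d x)
    (hφ : UF μ φ) (hφi : Inc μ 𝒜 R φ) (a b : Fin m) :
    ∀ᵐ x ∂μ, (μ[fun x => F a b x * conj (φ x)|𝒜]) (R x) = conj (φ (R x) * conj (φ x)) *
      ∑ c, ∑ d, ρ x a c * conj (ρ x b d) * (μ[fun x => F c d x * conj (φ x)|𝒜]) x := by
  have hFφ : ∀ a b, AB μ fun x => F a b x * conj (φ x) := fun a b => (hF a b).mul hφ.ab.conj
  have hφR : AB μ fun x => φ (R x) := hφ.ab.comp hS.mp
  have h1 := cec hS hA (hFφ a b).int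
  have hk : ∀ c d, AB μ fun x => conj (φ (R x) * conj (φ x)) * (ρ x a c * conj (ρ x b d)) :=
    fun c d => (hφR.mul hφ.ab.conj).conj.mul ((hρA a c).mul (hρA b d).conj)
  have hkm : ∀ c d, AM μ 𝒜 fun x => conj (φ (R x) * conj (φ x)) * (ρ x a c * conj (ρ x b d)) :=
    fun c d => am_mul (am_conj hφi) (am_mul (hρ a c) (am_conj (hρ b d)))
  have h2 : (fun x => F a b (R x) * conj (φ (R x))) =ᵐ[μ] fun x => ∑ c, ∑ d,
      (conj (φ (R x) * conj (φ x)) * (ρ x a c * conj (ρ x b d))) *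
        (F c d x * conj (φ x)) := by
    filter_upwards [hFR a b, hφ.mul_conj] with x h3 h4
    rw [h3, Finset.sum_mul]
    refine Finset.sum_congr rfl fun c _ => ?_
    rw [Finset.sum_mul]
    refine Finset.sum_congr rfl fun d _ => ?_
    rw [map_mul, Complex.conj_conj]
    calc ρ x a c * conj (ρ x b d) * F c d x * conj (φ (R x)) =
        conj (φ (R x)) * 1 * (ρ x a c * conj (ρ x b d)) * F c d x := by ring
      _ = _ := by rw [← h4]; ring
  have h3 := ce_sum2 (C := 𝒜) (f := fun c d x =>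
    (conj (φ (R x) * conj (φ x)) * (ρ x a c * conj (ρ x b d))) * (F c d x * conj (φ x)))
    (fun c d => ((hk c d).mul (hFφ c d)).int)
  have h4 := ae_all_iff.2 fun c => ae_all_iff.2 fun d =>
    pullb (𝒜 := 𝒜) (hkm c d) (hk c d) (hFφ c d).int
  filter_upwards [h1, ce_congr (𝒜 := 𝒜) h2, h3, h4] with x e1 e2 e3 e4
  rw [← e1, e2, e3, Finset.mul_sum]
  refine Finset.sum_congr rfl fun c _ => ?_
  rw [Finset.mul_sum]
  refine Finset.sum_congr rfl fun d _ => ?_
  rw [e4 c d]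
  ring

theorem max_bound {ι : Type} [Fintype ι] {f : ι → Ω → ℂ}
    (h : ∀ i, ∃ B : ℝ, ∀ᵐ x ∂μ, ‖f i x‖ ≤ B) : ∃ B : ℝ, ∀ i, ∀ᵐ x ∂μ, ‖f i x‖ ≤ B := by
  choose B hB using h
  refine ⟨∑ i, |B i|, fun i => ?_⟩
  filter_upwards [hB i] with x hx
  refine hx.trans ((le_abs_self _).trans ?_)
  exact Finset.single_le_sum (f := fun i => |B i|) (fun _ _ => abs_nonneg _) (Finset.mem_univ i)

end sst

theorem st_SST : ST_SST := by
  classical
  intro Ω _ μ _ R R' C 𝒜 Φ n hS hR hC hA hCA hΦ hΦi hSat hSM h hh hhi E hE hE0 hInH hRk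
  obtain ⟨E', m, e, ρ, hle, hMi, hm1, hmn, hRk', hF⟩ := Pool.Agent.Helper72.TWR.st_MIN Ω μ ℂ R R'
    (fun _ => 1) C E n hS hR hC aestronglyMeasurable_const (fun x v => by simp) hE hE0 hRk
  have hρu : ∀ᵐ x ∂μ, ρ x * (ρ x).conjTranspose = 1 ∧ (ρ x).conjTranspose * ρ x = 1 := by
    filter_upwards [hF.unit] with x hx
    rw [← Matrix.star_eq_conjTranspose]
    exact ⟨Matrix.mem_unitaryGroup_iff.1 hx, Matrix.mem_unitaryGroup_iff'.1 hx⟩
  have hFc : ∀ a, ∀ᵐ x ∂μ, e a (R x) = ∑ b, ρ x a b * e b x := by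
    intro a
    filter_upwards [hF.comp a] with x hx
    simpa using hx
  have heb : ∀ a, ∀ᵐ x ∂μ, ‖e a x‖ ≤ m := by
    intro a
    filter_upwards [hF.norm] with x hx
    have h1 : ‖e a x‖ ^ 2 ≤ m := by
      rw [← hx]
      exact Finset.single_le_sum (f := fun a => ‖e a x‖ ^ 2) (fun _ _ => sq_nonneg _)
        (Finset.mem_univ a)
    have h2 : (1 : ℝ) ≤ m := by exact_mod_cast hm1
    nlinarith [norm_nonneg (e a x)]
  have heA : ∀ a, AB μ (e a) := fun a => ⟨(Lp.aestronglyMeasurable (e a)), m, heb a⟩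
  have hρA : ∀ a b, AB μ fun x => ρ x a b := by
    intro a b
    refine ⟨aesm hC.1 (hF.meas a b), 1, ?_⟩
    filter_upwards [hF.unit] with x hx
    exact entry_norm_bound_of_unitary hx a b
  rcases Nat.lt_or_ge 1 m with hm2 | hm2
  swap
  · -- rank one
    have hm : m = 1 := by omega
    subst hm
    have h1 : ∀ᵐ x ∂μ, ‖e 0 x‖ = 1 := by
      filter_upwards [hF.norm] with x hx
      have : ‖e 0 x‖ ^ 2 = 1 := by simpa using hx
      nlinarith [norm_nonneg (e 0 x)]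
    obtain ⟨ψ, hψ, -, -, hψe⟩ := exists_uf (μ := μ) (𝒜 := (inferInstance : MeasurableSpace Ω))
      (f := e 0) (le_refl _) (Lp.aestronglyMeasurable (e 0)) h1
    refine ⟨ψ, hψ, ?_, e 0, hle (hF.mem 0), hψe⟩
    refine am_congr (hF.meas 0 0) ?_
    filter_upwards [hFc 0, hψe, hS.mp.quasiMeasurePreserving.ae hψe, hψ.mul_conj]
      with x h2 h3 h4 h5
    rw [← h4, h2, ← h3]
    simp only [Finset.univ_unique, Finset.sum_singleton, Fin.default_eq_zero, Fin.isValue]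
    rw [h3, mul_assoc, h5, mul_one]
  exfalso
  -- the matrix `P - 1`
  obtain ⟨P, hP⟩ : ∃ P : Fin m → Fin m → Ω → ℂ, ∀ a b x, P a b x = e a x * conj (e b x) :=
    ⟨_, fun _ _ _ => rfl⟩
  have hPA : ∀ a b, AB μ (P a b) := by
    intro a b
    refine ((heA a).mul (heA b).conj).congr (Eventually.of_forall fun x => ?_)
    rw [hP]
  obtain ⟨D, hD⟩ : ∃ D : Fin m → Fin m → Ω → ℂ, ∀ a b x, D a b x = P a b x -
      (1 : Matrix (Fin m) (Fin m) ℂ) a b := ⟨_, fun _ _ _ => rfl⟩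
  have hDA : ∀ a b, AB μ (D a b) := by
    intro a b
    refine ((hPA a b).sub (ab_const ((1 : Matrix (Fin m) (Fin m) ℂ) a b))).congr
      (Eventually.of_forall fun x => ?_)
    rw [hD]
  have hPC : ∀ a b, μ[P a b|C] =ᵐ[μ] fun _ => (1 : Matrix (Fin m) (Fin m) ℂ) a b := by
    intro a b
    have h1 : P a b = fun x => (inner ℂ (e b x) (e a x) : ℂ) := by
      funext x
      rw [hP, RCLike.inner_apply]
    rw [h1]
    filter_upwards [hF.on a b] with x hx
    rw [hx, Matrix.one_apply]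
  have hDC : ∀ a b, μ[D a b|C] =ᵐ[μ] 0 := by
    intro a b
    have h1 : D a b = fun x => P a b x - (1 : Matrix (Fin m) (Fin m) ℂ) a b := by
      funext x; rw [hD]
    rw [h1]
    filter_upwards [ce_sub (𝒜 := C) (hPA a b).int
      (integrable_const ((1 : Matrix (Fin m) (Fin m) ℂ) a b)), hPC a b,
      ce_of_am hC.1 (integrable_const ((1 : Matrix (Fin m) (Fin m) ℂ) a b)) (am_const (μ := μ) _)]
      with x h2 h3 h4
    rw [h2, h3, h4]
    simp
  have hPR : ∀ a b, ∀ᵐ x ∂μ, P a b (R x) = ∑ c, ∑ d, ρ x a c * conj (ρ x b d) * P c d x := by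
    intro a b
    filter_upwards [hFc a, hFc b] with x h1 h2
    rw [hP, h1, h2, map_sum, Finset.sum_mul_sum]
    refine Finset.sum_congr rfl fun c _ => Finset.sum_congr rfl fun d _ => ?_
    rw [hP, map_mul]
    ring
  have hDR : ∀ a b, ∀ᵐ x ∂μ, D a b (R x) = ∑ c, ∑ d, ρ x a c * conj (ρ x b d) * D c d x := by
    intro a b
    filter_upwards [hPR a b, hρu] with x h1 h2
    rw [hD, h1]
    simp_rw [hD, mul_sub, Finset.sum_sub_distrib]
    congr 1
    have h3 := congrFun (congrFun h2.1 a) b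
    rw [Matrix.mul_apply] at h3
    rw [← h3]
    refine Finset.sum_congr rfl fun c _ => ?_
    rw [Finset.sum_eq_single c]
    · rw [Matrix.one_apply_eq, mul_one]; rfl
    · intro d _ hd
      rw [Matrix.one_apply_ne hd.symm, mul_zero]
    · intro hc
      exact absurd (Finset.mem_univ c) hc
  -- measurability for the large sigma algebra
  have hDm : ∀ a b, AM μ (jo 𝒜 (sg Φ)) (D a b) := by
    intro a b
    have h1 := hInH (e a) (hle (hF.mem a))
    have h2 := hInH (e b) (hle (hF.mem b))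
    refine am_congr (am_sub (am_mul h1 (am_conj h2))
      (am_const ((1 : Matrix (Fin m) (Fin m) ℂ) a b))) ?_
    filter_upwards [hh.mul_conj] with x hx
    rw [hD, hP, map_mul, Complex.conj_conj]
    have : conj (h x) * e a x * (h x * conj (e b x)) = h x * conj (h x) * (e a x * conj (e b x)) := by
      ring
    rw [this, hx, one_mul]
  -- some entry is not zero
  obtain ⟨a₀, b₀, hab⟩ : ∃ a b, ¬ D a b =ᵐ[μ] 0 := by
    by_contra hc
    push Not at hc
    obtain ⟨x, h1⟩ := (ae_all_iff.2 fun a => ae_all_iff.2 fun b => hc a b).exists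
    have h2 : ∀ a b, e a x * conj (e b x) = (1 : Matrix (Fin m) (Fin m) ℂ) a b := by
      intro a b
      have := h1 a b
      rw [hD, hP] at this
      exact sub_eq_zero.1 this
    have h3 := h2 ⟨0, by omega⟩ ⟨1, hm2⟩
    rw [Matrix.one_apply_ne (by simp)] at h3
    rcases mul_eq_zero.1 h3 with h4 | h4
    · have h5 := h2 ⟨0, by omega⟩ ⟨0, by omega⟩
      rw [h4, zero_mul, Matrix.one_apply_eq] at h5
      exact zero_ne_one h5
    · have h5 := h2 ⟨1, hm2⟩ ⟨1, hm2⟩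
      rw [h4, mul_zero, Matrix.one_apply_eq] at h5
      exact zero_ne_one h5
  obtain ⟨φ, hφ, hφ0⟩ : ∃ φ ∈ Φ, ¬ μ[fun x => D a₀ b₀ x * conj (φ x)|𝒜] =ᵐ[μ] 0 := by
    by_contra hc
    push Not at hc
    exact hab (Pool.Agent.Helper96.TWR.st_DNS Ω μ 𝒜 Φ (D a₀ b₀) hA.1 hΦ (hDA a₀ b₀).int
      (hDm a₀ b₀) hc)
  have hφu := hΦ.uf φ hφ
  have hφi := hΦi φ hφ
  have hρ𝒜 : ∀ a b, AM μ 𝒜 fun x => ρ x a b := fun a b => hCA _ (hF.meas a b)
  obtain ⟨q, hq⟩ : ∃ q : Fin m → Fin m → Ω → ℂ, ∀ a b, q a b =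
      μ[fun x => D a b x * conj (φ x)|𝒜] := ⟨_, fun _ _ => rfl⟩
  have hDφ : ∀ a b, AB μ fun x => D a b x * conj (φ x) := fun a b => (hDA a b).mul hφu.ab.conj
  have hqA : ∀ a b, AB μ (q a b) := fun a b => by rw [hq]; exact (hDφ a b).ce hA.1
  have hqm : ∀ a b, AM μ 𝒜 (q a b) := fun a b => by rw [hq]; exact ce_am
  have hqR : ∀ a b, ∀ᵐ x ∂μ, q a b (R x) = conj (φ (R x) * conj (φ x)) *
      ∑ c, ∑ d, ρ x a c * conj (ρ x b d) * q c d x := by
    intro a b
    simp_rw [hq]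
    exact equi hS hA hDA hρ𝒜 hρA hDR hφu hφi a b
  have hwm : ∀ a b, MemLp (fun x => φ x * q a b x) 2 μ := fun a b => (hφu.ab.mul (hqA a b)).memLp
  obtain ⟨w, hw⟩ : ∃ w : Fin m × Fin m → Lp ℂ 2 μ, ∀ c, w c =ᵐ[μ] fun x => φ x * q c.1 c.2 x :=
    ⟨fun c => (hwm c.1 c.2).toLp, fun c => (hwm c.1 c.2).coeFn_toLp⟩
  have hwR : ∀ c : Fin m × Fin m, ∀ᵐ x ∂μ, w c (R x) = ∑ d : Fin m × Fin m,
      (ρ x c.1 d.1 * conj (ρ x c.2 d.2)) * w d x := by
    intro c
    filter_upwards [hqR c.1 c.2, hS.mp.quasiMeasurePreserving.ae (hw c), ae_all_iff.2 hw,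
      hφu.mul_conj, hS.mp.quasiMeasurePreserving.ae hφu.mul_conj] with x h1 h2 h3 h4 h5
    rw [h2, h1, Fintype.sum_prod_type]
    simp_rw [h3]
    rw [map_mul, Complex.conj_conj, ← mul_assoc, ← mul_assoc, h5, one_mul, Finset.mul_sum]
    refine Finset.sum_congr rfl fun a _ => ?_
    rw [Finset.mul_sum]
    refine Finset.sum_congr rfl fun b _ => ?_
    ring
  obtain ⟨G₀, hG₀, hwG, hrk, hmin⟩ := Pool.Agent.Helper96.TWR.st_SPN Ω μ R R' C (m * m)
    (fun i => w (finProdFinEquiv.symm i))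
    (fun i j x => ρ x (finProdFinEquiv.symm i).1 (finProdFinEquiv.symm j).1 *
      conj (ρ x (finProdFinEquiv.symm i).2 (finProdFinEquiv.symm j).2)) hS hC
    (max_bound fun i => by
      obtain ⟨B, hB⟩ := (hφu.ab.mul (hqA (finProdFinEquiv.symm i).1 (finProdFinEquiv.symm i).2)).2
      refine ⟨B, ?_⟩
      filter_upwards [hB, hw (finProdFinEquiv.symm i)] with x h1 h2
      rw [h2]; exact h1)
    (by
      obtain ⟨B, hB⟩ := max_bound (μ := μ) (ι := Fin (m * m) × Fin (m * m)) (f := fun ij x =>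
        ρ x (finProdFinEquiv.symm ij.1).1 (finProdFinEquiv.symm ij.2).1 *
        conj (ρ x (finProdFinEquiv.symm ij.1).2 (finProdFinEquiv.symm ij.2).2))
        (fun ij => ((hρA _ _).mul (hρA _ _).conj).2)
      exact ⟨B, fun i j => hB (i, j)⟩)
    (fun i j => am_mul (hF.meas _ _) (am_conj (hF.meas _ _)))
    (fun i => by
      filter_upwards [hwR (finProdFinEquiv.symm i)] with x hx
      rw [hx]
      exact (Equiv.sum_comp finProdFinEquiv.symm fun d : Fin m × Fin m =>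
        (ρ x (finProdFinEquiv.symm i).1 d.1 * conj (ρ x (finProdFinEquiv.symm i).2 d.2)) *
          w d x).symm)
  have hwG' : ∀ c, w c ∈ G₀ := by
    intro c
    have := hwG (finProdFinEquiv c)
    rwa [Equiv.symm_apply_apply] at this
  have hmin' : ∀ E'' : Submodule ℂ (Lp ℂ 2 μ), C0 μ C E'' → (∀ c, w c ∈ E'') → G₀ ≤ E'' :=
    fun E'' h1 h2 => hmin E'' h1 fun i => h2 _
  have hG₀0 : G₀ ≠ ⊥ := by
    intro hc
    have h1 := hwG' (a₀, b₀)
    rw [hc, Submodule.mem_bot] at h1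
    apply hφ0
    rw [← hq]
    have h2 := hw (a₀, b₀)
    rw [h1] at h2
    filter_upwards [h2, Lp.coeFn_zero ℂ 2 μ, hφu.conj_mul] with x h3 h4 h5
    rw [h4] at h3
    calc q a₀ b₀ x = conj (φ x) * φ x * q a₀ b₀ x := by rw [h5, one_mul]
      _ = conj (φ x) * (φ x * q a₀ b₀ x) := by ring
      _ = 0 := by
        have h6 : φ x * q a₀ b₀ x = 0 := h3.symm
        rw [h6, mul_zero]
  have hInφ : InH μ φ 𝒜 G₀ := by
    intro G hG
    refine mem_KH.1 (hmin' (KH μ 𝒜 φ) (KH_C0 hCA φ) (fun c => ?_) hG)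
    rw [mem_KH]
    refine am_congr (hqm c.1 c.2) ?_
    filter_upwards [hw c, hφu.conj_mul] with x h1 h2
    rw [h1, ← mul_assoc, h2, one_mul]
  obtain ⟨ψ, hψ, hψi, g, hgG, hgψ⟩ := hSM φ hφu hφi G₀ hG₀ hG₀0 hInφ
    (fun m' e' h1 h2 => (hrk m' e' h1 h2).trans (by
      rw [pow_two]; exact Nat.mul_le_mul hmn hmn))
  have hψφ : AM μ 𝒜 fun x => conj (φ x) * ψ x := by
    refine am_congr (hInφ g hgG) ?_
    filter_upwards [hgψ] with x hx
    rw [hx]
  have hψφ' : AM μ 𝒜 fun x => φ x * conj (ψ x) := by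
    refine am_congr (am_conj hψφ) (Eventually.of_forall fun x => ?_)
    simp
  -- `E(ψ | C) = 0`
  have hwC : ∀ c : Fin m × Fin m, μ[fun x => φ x * q c.1 c.2 x|C] =ᵐ[μ] 0 := by
    intro c
    rcases Pool.Agent.Helper13.TWR.st_LZ Pool.Agent.Helper73.TWR.st_CEC Ω μ R R' 𝒜 φ hS hR hA hφu
      hφi with h1 | h1
    · have h2 : μ[fun x => q c.1 c.2 x * φ x|𝒜] =ᵐ[μ] 0 :=
        ce_mul_zero (hqm _ _) ((hqA _ _).int_mul hφu.ab.int) hφu.ab.int h1
      have h3 := ce_zero_lq hC.1 hA.1 hCA ((hqA c.1 c.2).mul hφu.ab).int h2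
      refine (ce_congr (Eventually.of_forall fun x => ?_)).trans h3
      exact mul_comm _ _
    · have h2 : (fun x => φ x * q c.1 c.2 x) =ᵐ[μ] μ[D c.1 c.2|𝒜] := by
        have h3 := pullb (𝒜 := 𝒜) h1 hφu.ab (hDφ c.1 c.2).int
        have h4 : (fun x => φ x * (D c.1 c.2 x * conj (φ x))) =ᵐ[μ] D c.1 c.2 := by
          filter_upwards [hφu.mul_conj] with x hx
          calc φ x * (D c.1 c.2 x * conj (φ x)) = (φ x * conj (φ x)) * D c.1 c.2 x := by ring
            _ = _ := by rw [hx, one_mul]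
        filter_upwards [h3, ce_congr (𝒜 := 𝒜) h4] with x h5 h6
        rw [hq, ← h5, h6]
      exact (ce_congr h2).trans ((ce_tower hC.1 hA.1 hCA (hDA _ _).int).trans (hDC _ _))
  have hψ0 : μ[ψ|C] =ᵐ[μ] 0 := by
    have h1 : MemLp (fun _ : Ω => (1 : ℂ)) 2 μ := memLp_const 1
    have h2 : g ∈ ZZ μ C (fun _ => (1 : ℂ)) := by
      refine hmin' _ (ZZ_C0 hC.1 h1) (fun c => ?_) hgG
      rw [mem_ZZ hC.1 h1]
      refine (ce_congr ?_).trans (hwC c)
      filter_upwards [hw c] with x hx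
      rw [hx, RCLike.inner_apply]
      simp
    rw [mem_ZZ hC.1 h1] at h2
    refine (ce_congr ?_).trans h2
    filter_upwards [hgψ] with x hx
    rw [← hx, RCLike.inner_apply]
    simp
  -- the matrix `B`
  obtain ⟨B, hB⟩ : ∃ B : Ω → Matrix (Fin m) (Fin m) ℂ, ∀ x a b, B x a b =
      (μ[fun x => P a b x * conj (ψ x)|C]) x := ⟨fun x => Matrix.of fun a b => _, fun _ _ _ => rfl⟩
  have hBm : ∀ a b, AM μ C fun x => B x a b := by
    intro a b
    refine am_congr (f := μ[fun x => P a b x * conj (ψ x)|C]) ce_am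
      (Eventually.of_forall fun x => ?_)
    show _ = B x a b
    rw [hB]
  have hBR : ∀ᵐ x ∂μ, B (R x) = conj (ψ (R x) * conj (ψ x)) •
      (ρ x * B x * (ρ x).conjTranspose) := by
    filter_upwards [ae_all_iff.2 fun a => ae_all_iff.2 fun b =>
      equi hS hC hPA hF.meas hρA hPR hψ hψi a b] with x hx
    ext a b
    rw [hB, hx, Matrix.smul_apply, smul_eq_mul]
    congr 1
    rw [Matrix.mul_apply]
    simp_rw [Matrix.mul_apply, Finset.sum_mul, Matrix.conjTranspose_apply]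
    rw [Finset.sum_comm]
    refine Finset.sum_congr rfl fun c _ => Finset.sum_congr rfl fun d _ => ?_
    rw [hB, Complex.star_def]
    ring
  have hB0 : ¬ ∀ᵐ x ∂μ, B x = 0 := by
    intro hc
    have hψm : MemLp ψ 2 μ := hψ.ab.memLp
    have h2 : g ∈ ZZ μ C ψ := by
      refine hmin' _ (ZZ_C0 hC.1 hψm) (fun c => ?_) hgG
      rw [mem_ZZ hC.1 hψm]
      -- `conj ψ φ q = E(D conj ψ | 𝒜)`
      have h3 : (fun x => (φ x * conj (ψ x)) * q c.1 c.2 x) =ᵐ[μ]
          μ[fun x => D c.1 c.2 x * conj (ψ x)|𝒜] := by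
        have h4 := pullb (𝒜 := 𝒜) hψφ' (hφu.ab.mul hψ.ab.conj) (hDφ c.1 c.2).int
        have h5 : (fun x => (φ x * conj (ψ x)) * (D c.1 c.2 x * conj (φ x))) =ᵐ[μ]
            fun x => D c.1 c.2 x * conj (ψ x) := by
          filter_upwards [hφu.mul_conj] with x hx
          calc (φ x * conj (ψ x)) * (D c.1 c.2 x * conj (φ x)) =
              (φ x * conj (φ x)) * (D c.1 c.2 x * conj (ψ x)) := by ring
            _ = _ := by rw [hx, one_mul]
        filter_upwards [h4, ce_congr (𝒜 := 𝒜) h5] with x h6 h7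
        rw [hq, ← h6, h7]
      have h4 : (fun x => (inner ℂ (ψ x) (w c x) : ℂ)) =ᵐ[μ]
          fun x => (φ x * conj (ψ x)) * q c.1 c.2 x := by
        filter_upwards [hw c] with x hx
        rw [hx, RCLike.inner_apply]
        ring
      refine (ce_congr (h4.trans h3)).trans ((ce_tower hC.1 hA.1 hCA
        ((hDA _ _).mul hψ.ab.conj).int).trans ?_)
      have h5 : (fun x => D c.1 c.2 x * conj (ψ x)) = fun x => P c.1 c.2 x * conj (ψ x) -
          (1 : Matrix (Fin m) (Fin m) ℂ) c.1 c.2 * conj (ψ x) := by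
        funext x
        rw [hD]; ring
      rw [h5]
      have h6 : μ[fun x => conj (ψ x)|C] =ᵐ[μ] 0 := by
        have h7 : μ[fun x => conj (ψ x)|C] =ᵐ[μ] fun x => conj ((μ[ψ|C]) x) :=
          (ContinuousLinearMap.comp_condExp_comm hψ.ab.int Complex.conjCLE.toContinuousLinearMap
            |>.symm)
        filter_upwards [h7, hψ0] with x h8 h9
        rw [h8, h9]; simp
      filter_upwards [ce_sub (𝒜 := C) ((hPA c.1 c.2).mul hψ.ab.conj).int
        (((ab_const ((1 : Matrix (Fin m) (Fin m) ℂ) c.1 c.2)).mul hψ.ab.conj).int),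
        ce_mul_zero (am_const (μ := μ) (𝒜 := C) ((1 : Matrix (Fin m) (Fin m) ℂ) c.1 c.2))
          (((ab_const ((1 : Matrix (Fin m) (Fin m) ℂ) c.1 c.2)).mul hψ.ab.conj).int)
          hψ.ab.conj.int h6, hc] with x h8 h9 h10
      rw [h8, h9, ← hB, h10]
      simp
    rw [mem_ZZ hC.1 hψm] at h2
    have h3 : (fun x => (inner ℂ (ψ x) (g x) : ℂ)) =ᵐ[μ] fun _ => 1 := by
      filter_upwards [hgψ, hψ.mul_conj] with x hx hx2
      rw [hx, RCLike.inner_apply, hx2]
    obtain ⟨x, h4, h5, h6⟩ := (h2.and ((ce_congr (𝒜 := C) h3).and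
      (ce_of_am hC.1 (integrable_const (1 : ℂ)) (am_const (μ := μ) (1 : ℂ))))).exists
    rw [h5, h6] at h4
    exact one_ne_zero h4
  have hBc : ∀ a b, AM μ C fun x => (B x).conjTranspose a b := fun a b => am_conj (hBm b a)
  -- `B^* B` is scalar
  obtain ⟨s, hs⟩ := st_SCL Ω μ ℂ R R' (fun _ => 1) C E' m e ρ hS hR hC hMi hF
    (fun x => (B x).conjTranspose * B x) (fun a b => by
      refine am_congr (am_finset_sum (μ := μ) (𝒜 := C) Finset.univ
        (F := fun k x => (B x).conjTranspose a k * B x k b)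
        fun k _ => am_mul (hBc a k) (hBm k b)) (Eventually.of_forall fun x => ?_)
      simp [Matrix.mul_apply])
    (Eventually.of_forall fun x => Matrix.isHermitian_conjTranspose_mul_self _) (by
    filter_upwards [hBR, hρu, hψ.2, hS.mp.quasiMeasurePreserving.ae hψ.2] with x h1 h2 h3 h4
    rw [h1, Matrix.conjTranspose_smul, Matrix.smul_mul, Matrix.mul_smul, smul_smul,
      Matrix.conjTranspose_mul, Matrix.conjTranspose_mul, Matrix.conjTranspose_conjTranspose]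
    have h6 : star (conj (ψ (R x) * conj (ψ x))) * conj (ψ (R x) * conj (ψ x)) = 1 := by
      rw [Complex.star_def, Complex.conj_mul', RCLike.norm_conj, norm_mul, RCLike.norm_conj, h3, h4]
      simp
    rw [h6, one_smul]
    calc ρ x * ((B x).conjTranspose * (ρ x).conjTranspose) * (ρ x * B x * (ρ x).conjTranspose) =
        ρ x * ((B x).conjTranspose * ((ρ x).conjTranspose * ρ x) * B x) * (ρ x).conjTranspose := by
          noncomm_ring
      _ = _ := by rw [h2.2, Matrix.mul_one])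
  have hsr : ∀ᵐ x ∂μ, s = ∑ k, ‖B x k ⟨0, hm1⟩‖ ^ 2 := by
    filter_upwards [hs] with x hx
    have h1 := congrFun (congrFun hx ⟨0, hm1⟩) ⟨0, hm1⟩
    rw [Matrix.mul_apply, Matrix.smul_apply, Matrix.one_apply_eq, smul_eq_mul, mul_one] at h1
    have h2 : ((∑ k, ‖B x k ⟨0, hm1⟩‖ ^ 2 : ℝ) : ℂ) = (s : ℂ) := by
      rw [← h1]
      push_cast
      refine Finset.sum_congr rfl fun k _ => ?_
      rw [Matrix.conjTranspose_apply, Complex.star_def, Complex.conj_mul']
    exact_mod_cast h2.symm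
  have hs0 : 0 ≤ s := by
    obtain ⟨x, hx⟩ := hsr.exists
    rw [hx]
    exact Finset.sum_nonneg fun _ _ => sq_nonneg _
  have hsp : 0 < s := by
    rcases hs0.lt_or_eq with h | h
    · exact h
    · exfalso
      apply hB0
      filter_upwards [hs] with x hx
      have h2 : (B x).conjTranspose * B x = 0 := by rw [hx, ← h]; simp
      exact Matrix.conjTranspose_mul_self_eq_zero.1 h2
  obtain ⟨W, hW⟩ : ∃ W : Ω → Matrix (Fin m) (Fin m) ℂ, ∀ x, W x =
      (((Real.sqrt s)⁻¹ : ℝ) : ℂ) • B x := ⟨_, fun _ => rfl⟩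
  obtain ⟨M, hM1, hM2, hM3⟩ := Pool.Agent.Helper99.TWR.TWS Ω μ R R' C m ρ W (fun x => conj (ψ x))
    hS hR hC hm1 hF.meas hF.unit (fun a b => by
      refine am_congr (am_mul (am_const (μ := μ) (𝒜 := C) (((Real.sqrt s)⁻¹ : ℝ) : ℂ)) (hBm a b))
        (Eventually.of_forall fun x => ?_)
      show _ = W x a b
      rw [hW]; rfl) (by
      filter_upwards [hs] with x hx
      rw [Matrix.mem_unitaryGroup_iff', Matrix.star_eq_conjTranspose, hW,
        Matrix.conjTranspose_smul, Matrix.smul_mul, Matrix.mul_smul, smul_smul, hx, smul_smul]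
      have : star ((((Real.sqrt s)⁻¹ : ℝ) : ℂ)) * (((Real.sqrt s)⁻¹ : ℝ) : ℂ) * (s : ℂ) = 1 := by
        rw [Complex.star_def, Complex.conj_ofReal, ← Complex.ofReal_mul, ← Complex.ofReal_mul]
        have h1 : (Real.sqrt s)⁻¹ * (Real.sqrt s)⁻¹ * s = 1 := by
          have h2 : Real.sqrt s * Real.sqrt s = s := Real.mul_self_sqrt hs0
          have hr0 : Real.sqrt s ≠ 0 := (Real.sqrt_pos.2 hsp).ne'
          calc (Real.sqrt s)⁻¹ * (Real.sqrt s)⁻¹ * s =
              (Real.sqrt s)⁻¹ * (Real.sqrt s)⁻¹ * (Real.sqrt s * Real.sqrt s) := by rw [h2]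
            _ = 1 := by field_simp
        rw [h1]; simp
      rw [this, one_smul]) hψ.conj hψi.conj (by
      filter_upwards [hBR] with x hx
      rw [hW, hW, hx, Matrix.mul_smul, Matrix.smul_mul, smul_smul, smul_smul]
      congr 1
      rw [map_mul, Complex.conj_conj]
      ring)
  have hψ𝒟 : AM μ (jo 𝒜 (sg Φ)) fun x => conj (ψ x) := by
    refine am_congr (am_conj (am_mul (am_jo_right (am_sg hφ)) (am_jo_left hψφ))) ?_
    filter_upwards [hφu.mul_conj] with x hx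
    rw [← mul_assoc, hx, one_mul]
  have hψC : AM μ C (fun x => conj (ψ x)) :=
    hSat _ hψ.conj hψ𝒟 hψi.conj M hM1 (hM2.trans (Nat.pow_le_pow_left hmn 2)) hM3
  have hψC' : AM μ C ψ := by
    refine am_congr (am_conj hψC) (Eventually.of_forall fun x => ?_)
    simp
  obtain ⟨x, h2, h3, h4⟩ := ((ce_of_am hC.1 hψ.ab.int hψC').and (hψ0.and hψ.2)).exists
  rw [h2] at h3
  rw [h3] at h4
  simp at h4

end Pool.Agent.Helper95.TWR
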