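import Mathlib

/-!
Spectral projections of Hermitian matrices with a given characteristic polynomial.
-/

open Polynomial
open scoped ComplexConjugate Matrix

namespace Pool.Agent.Helper95.TWR

theorem herm_eq {m : ℕ} {A : Matrix (Fin m) (Fin m) ℂ} (hA : A.IsHermitian) :
    A = (hA.eigenvectorUnitary : Matrix (Fin m) (Fin m) ℂ) *
      Matrix.diagonal (fun i => (hA.eigenvalues i : ℂ)) *
      star (hA.eigenvectorUnitary : Matrix (Fin m) (Fin m) ℂ) := by
  have h := hA.spectral_theorem
  rw [Unitary.conjStarAlgAut_apply] at h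
  exact h

/-- a polynomial of a Hermitian matrix in the basis of eigenvectors -/
theorem aeval_herm {m : ℕ} {A : Matrix (Fin m) (Fin m) ℂ} (hA : A.IsHermitian) (p : ℂ[X]) :
    aeval A p = (hA.eigenvectorUnitary : Matrix (Fin m) (Fin m) ℂ) *
      Matrix.diagonal (fun i => p.eval (hA.eigenvalues i : ℂ)) *
      star (hA.eigenvectorUnitary : Matrix (Fin m) (Fin m) ℂ) := by
  have hU : (hA.eigenvectorUnitary : Matrix (Fin m) (Fin m) ℂ) *
      star (hA.eigenvectorUnitary : Matrix (Fin m) (Fin m) ℂ) = 1 :=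
    Unitary.mul_star_self_of_mem hA.eigenvectorUnitary.2
  have hU' : star (hA.eigenvectorUnitary : Matrix (Fin m) (Fin m) ℂ) *
      (hA.eigenvectorUnitary : Matrix (Fin m) (Fin m) ℂ) = 1 :=
    Unitary.star_mul_self_of_mem hA.eigenvectorUnitary.2
  have hc : ∀ a : ℂ, aeval A (C a : ℂ[X]) = (hA.eigenvectorUnitary : Matrix (Fin m) (Fin m) ℂ) *
      Matrix.diagonal (fun i => (C a : ℂ[X]).eval (hA.eigenvalues i : ℂ)) *
      star (hA.eigenvectorUnitary : Matrix (Fin m) (Fin m) ℂ) := by
    intro a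
    have h1 : Matrix.diagonal (fun i : Fin m => (C a : ℂ[X]).eval (hA.eigenvalues i : ℂ)) =
        a • (1 : Matrix (Fin m) (Fin m) ℂ) := by
      ext i j
      simp [Matrix.diagonal_apply, Matrix.one_apply]
    rw [h1, Matrix.mul_smul, Matrix.smul_mul, Matrix.mul_one, hU, aeval_C,
      Algebra.algebraMap_eq_smul_one]
  induction p using Polynomial.induction_on with
  | C a => exact hc a
  | add p q hp hq =>
    rw [map_add, hp, hq, ← Matrix.add_mul, ← Matrix.mul_add, Matrix.diagonal_add]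
    simp
  | monomial n a ih =>
    have hA2 : ∀ X : Matrix (Fin m) (Fin m) ℂ, X * A =
        X * ((hA.eigenvectorUnitary : Matrix (Fin m) (Fin m) ℂ) *
      Matrix.diagonal (fun i => (hA.eigenvalues i : ℂ)) *
      star (hA.eigenvectorUnitary : Matrix (Fin m) (Fin m) ℂ)) := fun X => by rw [← herm_eq hA]
    rw [pow_succ, ← mul_assoc, map_mul, aeval_X, ih, hA2]
    have h2 : ∀ X Y Z W : Matrix (Fin m) (Fin m) ℂ, W * X = 1 →
        X * Y * W * (X * Z * W) = X * (Y * Z) * W := by
      intro X Y Z W h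
      calc X * Y * W * (X * Z * W) = X * Y * (W * X) * Z * W := by noncomm_ring
        _ = X * (Y * Z) * W := by rw [h]; noncomm_ring
    rw [h2 _ _ _ _ hU', Matrix.diagonal_mul_diagonal]
    simp

/-- roots of the characteristic polynomial -/
theorem eig_root {m : ℕ} {A : Matrix (Fin m) (Fin m) ℂ} (hA : A.IsHermitian) (i : Fin m) :
    A.charpoly.IsRoot (hA.eigenvalues i : ℂ) := by
  rw [hA.charpoly_eq, IsRoot, eval_prod]
  exact Finset.prod_eq_zero (Finset.mem_univ i) (by simp)

theorem root_eig {m : ℕ} {A : Matrix (Fin m) (Fin m) ℂ} (hA : A.IsHermitian) (t : ℂ)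
    (ht : A.charpoly.IsRoot t) : ∃ i, t = (hA.eigenvalues i : ℂ) := by
  rw [hA.charpoly_eq, IsRoot, eval_prod, Finset.prod_eq_zero_iff] at ht
  obtain ⟨i, -, hi⟩ := ht
  refine ⟨i, ?_⟩
  simpa [sub_eq_zero] using hi

/-- spectral projections as polynomials -/
theorem specproj {m : ℕ} (p₀ : ℂ[X]) (h0 : p₀ ≠ 0) (t : ℝ) : ∃ r : ℂ[X],
    ∀ A : Matrix (Fin m) (Fin m) ℂ, A.IsHermitian → A.charpoly = p₀ →
      (aeval A r).IsHermitian ∧ aeval A r * aeval A r = aeval A r ∧
      A * aeval A r = (t : ℂ) • aeval A r ∧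
      (p₀.IsRoot (t : ℂ) → aeval A r ≠ 0) := by
  classical
  refine ⟨∏ s ∈ p₀.roots.toFinset.erase (t : ℂ), (C ((t : ℂ) - s)⁻¹ * (X - C s)), ?_⟩
  intro A hA hc
  set r : ℂ[X] := ∏ s ∈ p₀.roots.toFinset.erase (t : ℂ), (C ((t : ℂ) - s)⁻¹ * (X - C s)) with hr
  have h1 : r.eval (t : ℂ) = 1 := by
    rw [hr, eval_prod]
    refine Finset.prod_eq_one fun s hs => ?_
    have hs1 : s ≠ (t : ℂ) := (Finset.mem_erase.1 hs).1
    have hs2 : (t : ℂ) - s ≠ 0 := sub_ne_zero.2 hs1.symm
    simp [hs2]
  have h2 : ∀ i, hA.eigenvalues i ≠ t → r.eval (hA.eigenvalues i : ℂ) = 0 := by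
    intro i hi
    rw [hr, eval_prod]
    refine Finset.prod_eq_zero (i := (hA.eigenvalues i : ℂ)) ?_ (by simp)
    refine Finset.mem_erase.2 ⟨by exact_mod_cast hi, ?_⟩
    rw [Multiset.mem_toFinset, mem_roots h0, ← hc]
    exact eig_root hA i
  have h3 : ∀ i, r.eval (hA.eigenvalues i : ℂ) = if hA.eigenvalues i = t then 1 else 0 := by
    intro i
    by_cases hi : hA.eigenvalues i = t
    · rw [if_pos hi, hi, h1]
    · rw [if_neg hi, h2 i hi]
  have h4 : aeval A r = (hA.eigenvectorUnitary : Matrix (Fin m) (Fin m) ℂ) *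
      Matrix.diagonal (fun i => if hA.eigenvalues i = t then (1 : ℂ) else 0) *
      star (hA.eigenvectorUnitary : Matrix (Fin m) (Fin m) ℂ) := by
    rw [aeval_herm hA r]
    simp_rw [h3]
  have hU' : star (hA.eigenvectorUnitary : Matrix (Fin m) (Fin m) ℂ) *
      (hA.eigenvectorUnitary : Matrix (Fin m) (Fin m) ℂ) = 1 :=
    Unitary.star_mul_self_of_mem hA.eigenvectorUnitary.2
  have hU : (hA.eigenvectorUnitary : Matrix (Fin m) (Fin m) ℂ) *
      star (hA.eigenvectorUnitary : Matrix (Fin m) (Fin m) ℂ) = 1 :=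
    Unitary.mul_star_self_of_mem hA.eigenvectorUnitary.2
  have key : ∀ X Y Z W : Matrix (Fin m) (Fin m) ℂ, W * X = 1 →
      X * Y * W * (X * Z * W) = X * (Y * Z) * W := by
    intro X Y Z W h
    calc X * Y * W * (X * Z * W) = X * Y * (W * X) * Z * W := by noncomm_ring
      _ = X * (Y * Z) * W := by rw [h]; noncomm_ring
  refine ⟨?_, ?_, ?_, ?_⟩
  · rw [h4]
    unfold Matrix.IsHermitian
    have h5 : star (Matrix.diagonal (fun i => if hA.eigenvalues i = t then (1 : ℂ) else 0)) =
        Matrix.diagonal (fun i => if hA.eigenvalues i = t then (1 : ℂ) else 0) := by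
      rw [Matrix.star_eq_conjTranspose, Matrix.diagonal_conjTranspose]
      congr 1
      funext i
      simp only [Pi.star_apply]
      split_ifs <;> simp
    rw [← Matrix.star_eq_conjTranspose, star_mul, star_mul, star_star, h5, ← mul_assoc]
  · rw [h4, key _ _ _ _ hU', Matrix.diagonal_mul_diagonal]
    congr 3
    funext i
    split_ifs <;> simp
  · conv_lhs => rw [h4]
    have h5 : A * ((hA.eigenvectorUnitary : Matrix (Fin m) (Fin m) ℂ) *
        Matrix.diagonal (fun i => if hA.eigenvalues i = t then (1 : ℂ) else 0) *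
        star (hA.eigenvectorUnitary : Matrix (Fin m) (Fin m) ℂ)) =
        ((hA.eigenvectorUnitary : Matrix (Fin m) (Fin m) ℂ) *
        Matrix.diagonal (fun i => (hA.eigenvalues i : ℂ)) *
        star (hA.eigenvectorUnitary : Matrix (Fin m) (Fin m) ℂ)) *
        ((hA.eigenvectorUnitary : Matrix (Fin m) (Fin m) ℂ) *
        Matrix.diagonal (fun i => if hA.eigenvalues i = t then (1 : ℂ) else 0) *
        star (hA.eigenvectorUnitary : Matrix (Fin m) (Fin m) ℂ)) := by
      rw [← herm_eq hA]
    rw [h5, key _ _ _ _ hU', Matrix.diagonal_mul_diagonal, h4]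
    have h6 : (Matrix.diagonal fun i => (hA.eigenvalues i : ℂ) *
        (if hA.eigenvalues i = t then (1 : ℂ) else 0)) =
        (t : ℂ) • Matrix.diagonal (fun i => if hA.eigenvalues i = t then (1 : ℂ) else 0) := by
      ext i j
      simp only [Matrix.diagonal_apply, Matrix.smul_apply, smul_eq_mul]
      by_cases hij : i = j
      · subst hij
        by_cases hi : hA.eigenvalues i = t
        · simp [hi]
        · simp [hi]
      · simp [hij]
    rw [h6, Matrix.mul_smul, Matrix.smul_mul]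
  · intro hroot h7
    rw [← hc] at hroot
    obtain ⟨i, hi⟩ := root_eig hA _ hroot
    have hi' : hA.eigenvalues i = t := by exact_mod_cast hi.symm
    have h8 : Matrix.diagonal (fun i => if hA.eigenvalues i = t then (1 : ℂ) else 0) = 0 := by
      have h9 : star (hA.eigenvectorUnitary : Matrix (Fin m) (Fin m) ℂ) * aeval A r *
          (hA.eigenvectorUnitary : Matrix (Fin m) (Fin m) ℂ) =
          Matrix.diagonal (fun i => if hA.eigenvalues i = t then (1 : ℂ) else 0) := by
        rw [h4]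
        calc _ = (star (hA.eigenvectorUnitary : Matrix (Fin m) (Fin m) ℂ) *
          (hA.eigenvectorUnitary : Matrix (Fin m) (Fin m) ℂ)) *
          Matrix.diagonal (fun i => if hA.eigenvalues i = t then (1 : ℂ) else 0) *
          (star (hA.eigenvectorUnitary : Matrix (Fin m) (Fin m) ℂ) *
          (hA.eigenvectorUnitary : Matrix (Fin m) (Fin m) ℂ)) := by noncomm_ring
          _ = _ := by rw [hU']; simp
      rw [← h9, h7]
      simp
    have h10 := congrFun (congrFun h8 i) i
    simp [hi'] at h10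

end Pool.Agent.Helper95.TWR
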