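import Pool.Agent.Helper98.TW.Basic
import Pool.Agent.Helper73.TWR.CEC
import Pool.Agent.Helper95.TWR.Spec

/-!
Library for the rows SCL and SST of the sheet TW.
-/

set_option linter.unusedSectionVars false

open MeasureTheory Filter Topology Finset
open scoped ComplexConjugate

namespace Pool.Agent.Helper95.TWR

open Pool.Agent.Helper98.TW

section lib

variable {Ω : Type} [m0 : MeasurableSpace Ω] {μ : Measure Ω} [IsProbabilityMeasure μ]
variable {V : Type} [NormedAddCommGroup V] [InnerProductSpace ℂ V]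
variable {C : SA Ω}

theorem aesm {f : Ω → ℂ} (hC : Lm C) (hf : AM μ C f) : AEStronglyMeasurable f μ :=
  AEStronglyMeasurable.mono hC hf

/-- the conditional coefficient -/
theorem int_inner {f g : Ω → V} (hf : MemLp f 2 μ) (hg : MemLp g 2 μ) :
    Integrable (fun x => (inner ℂ (f x) (g x) : ℂ)) μ := by
  have h := L2.integrable_inner (𝕜 := ℂ) hf.toLp hg.toLp
  refine h.congr ?_
  filter_upwards [hf.coeFn_toLp, hg.coeFn_toLp] with x h1 h2
  rw [h1, h2]

/-- the functions `G` with `E(⟨f, G⟩ | C) = 0` -/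
noncomputable def ZZ (μ : Measure Ω) (C : SA Ω) (f : Ω → V) : Submodule ℂ (Lp V 2 μ) :=
  (Submodule.span ℂ {F : Lp V 2 μ | ∃ s : Set Ω, MeasurableSet[C] s ∧ F =ᵐ[μ] s.indicator f})ᗮ

theorem ZZ_closed (f : Ω → V) : IsClosed (ZZ μ C f : Set (Lp V 2 μ)) :=
  Submodule.isClosed_orthogonal _

theorem mem_ZZ (hC : Lm C) {f : Ω → V} (hf : MemLp f 2 μ) (G : Lp V 2 μ) :
    G ∈ ZZ μ C f ↔ μ[fun x => (inner ℂ (f x) (G x) : ℂ)|C] =ᵐ[μ] 0 := by
  have hle : @LE.le (MeasurableSpace Ω) _ C m0 := hC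
  have hi : Integrable (fun x => (inner ℂ (f x) (G x) : ℂ)) μ := int_inner hf (Lp.memLp G)
  have key : ∀ s : Set Ω, MeasurableSet[C] s → ∀ F : Lp V 2 μ, F =ᵐ[μ] s.indicator f →
      (inner ℂ F G : ℂ) = ∫ x in s, (inner ℂ (f x) (G x) : ℂ) ∂μ := by
    intro s hs F hF
    rw [L2.inner_def, ← integral_indicator (hle s hs)]
    refine integral_congr_ae ?_
    filter_upwards [hF] with x hx
    rw [hx]
    by_cases h : x ∈ s
    · simp [h]
    · simp [h]
  unfold ZZ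
  rw [Submodule.mem_orthogonal]
  constructor
  · intro h
    symm
    refine ae_eq_condExp_of_forall_setIntegral_eq hle hi (fun s _ _ => integrableOn_zero) ?_
      (am_const (μ := μ) (𝒜 := C) 0)
    intro s hs _
    have hm : MemLp (s.indicator f) 2 μ := hf.indicator (hle s hs)
    rw [← key s hs hm.toLp hm.coeFn_toLp]
    rw [h _ (Submodule.subset_span ⟨s, hs, hm.coeFn_toLp⟩)]
    simp
  · intro h F hF
    induction hF using Submodule.span_induction with
    | mem F hF =>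
      obtain ⟨s, hs, hF⟩ := hF
      rw [key s hs F hF, ← setIntegral_condExp hle hi hs]
      rw [setIntegral_congr_ae (g := fun _ => (0 : ℂ)) (hle s hs) (by
        filter_upwards [h] with x hx _
        exact hx)]
      simp
    | zero => simp
    | add F F' _ _ h1 h2 => rw [inner_add_left, h1, h2, add_zero]
    | smul a F _ h1 => rw [inner_smul_left, h1, mul_zero]

/-- bounded multiples -/
theorem memLp_smul {c : Ω → ℂ} {f : Ω → V} {B : ℝ} (hC : Lm C) (hc : AM μ C c)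
    (hB : ∀ᵐ x ∂μ, ‖c x‖ ≤ B) (hf : MemLp f 2 μ) : MemLp (fun x => c x • f x) 2 μ := by
  refine MemLp.of_le_mul (c := B) hf ((aesm hC hc).smul hf.1) ?_
  filter_upwards [hB] with x hx
  rw [norm_smul]
  exact mul_le_mul_of_nonneg_right hx (norm_nonneg _)

/-- elements of modules -/
theorem C0.smul' {E : Submodule ℂ (Lp V 2 μ)} (hE : C0 μ C E) (hC : Lm C) {c : Ω → ℂ} {B : ℝ}
    (hc : AM μ C c) (hB : ∀ᵐ x ∂μ, ‖c x‖ ≤ B) {G : Lp V 2 μ} (hG : G ∈ E) :
    ∃ G' ∈ E, ∀ᵐ x ∂μ, G' x = c x • G x := by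
  have hm := memLp_smul hC hc hB (Lp.memLp G)
  refine ⟨hm.toLp, hE.mul G hG c hc ⟨B, hB⟩ _ hm.coeFn_toLp, hm.coeFn_toLp⟩

theorem C0.sum' {E : Submodule ℂ (Lp V 2 μ)} (hE : C0 μ C E) (hC : Lm C) {m : ℕ}
    {c : Fin m → Ω → ℂ} {B : ℝ} (hc : ∀ a, AM μ C (c a)) (hB : ∀ a, ∀ᵐ x ∂μ, ‖c a x‖ ≤ B)
    {e : Fin m → Lp V 2 μ} (he : ∀ a, e a ∈ E) :
    ∃ G ∈ E, ∀ᵐ x ∂μ, G x = ∑ a, c a x • e a x := by
  choose G hG hG' using fun a => C0.smul' hE hC (hc a) (hB a) (he a)
  refine ⟨∑ a, G a, Submodule.sum_mem _ fun a _ => hG a, ?_⟩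
  have h1 := Lp.coeFn_finsetSum (μ := μ) (p := 2) Finset.univ G
  filter_upwards [h1, ae_all_iff.2 hG'] with x hx hx'
  rw [hx]
  simp only [Finset.sum_apply]
  exact Finset.sum_congr rfl fun a _ => hx' a

/-- sums of conditional expectations -/
theorem ce_sum {m : ℕ} {f : Fin m → Ω → ℂ} (hf : ∀ a, Integrable (f a) μ) :
    μ[fun x => ∑ a, f a x|C] =ᵐ[μ] fun x => ∑ a, (μ[f a|C]) x := by
  have h := condExp_finsetSum (μ := μ) (s := Finset.univ) (f := f) (fun a _ => hf a) C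
  have h2 : (∑ a, f a) = fun x => ∑ a, f a x := by
    funext x; simp
  rw [h2] at h
  filter_upwards [h] with x hx
  rw [hx]
  simp

end lib

end Pool.Agent.Helper95.TWR
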